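import Mathlib
import Pool.Agent.Worm.B2.Data

/-! From the periodicity of the Borel transform to an entire function of exponential type. -/

open MeasureTheory Set Metric Filter Topology
open scoped Real ENNReal

namespace Pool.Agent.Worm.BC

open Pool.Agent.Worm.B2

/-- Pointwise bounds from bounds on almost every horizontal line, with an explicit constant. -/
theorem pw_line {b : ℝ} {f : ℂ → ℂ} (hf : DifferentiableOn ℂ f {τ | |τ.im| < b})
    {n : ℝ → ℝ} (hn0 : ∀ t, 0 ≤ n t) (hnm : Measurable n)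
    (hn : IntegrableOn n (Ioo (-b) b)) {ρ : ℝ} (hρ : 0 < ρ) {τ : ℂ} (him : |τ.im| + ρ < b)
    {M : ℝ} (hM : 0 ≤ M)
    (hbd : ∀ᵐ (t : ℝ) ∂(volume.restrict (Ioo (-b) b)), ∀ l : ℝ, l ≤ τ.re + ρ →
      ‖f (l + t * Complex.I)‖ ≤ M * n t) :
    ‖f τ‖ ≤ M * ((2 * ρ * ∫ t in Ioo (-b) b, n t) / (π * ρ ^ 2)) := by
  set K : ℝ := ∫ t in Ioo (-b) b, n t with hK
  have hK0 : 0 ≤ K := setIntegral_nonneg measurableSet_Ioo fun t _ => hn0 t
  have hball : closedBall τ ρ ⊆ {τ : ℂ | |τ.im| < b} := by
    intro z hz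
    rw [mem_closedBall, dist_eq_norm] at hz
    have h1 := (Complex.abs_im_le_norm (z - τ)).trans hz
    rw [Complex.sub_im] at h1
    have h2 : |z.im| ≤ |τ.im| + |z.im - τ.im| := by
      have := abs_add_le τ.im (z.im - τ.im)
      simpa using this
    show |z.im| < b
    linarith
  have h1 := mean_area hf hρ hball
  have h2 : ∫⁻ z in ball τ ρ, ‖f z‖ₑ ≤ ∫⁻ p : ℝ × ℝ, ENNReal.ofReal (M * n p.2)
      ∂((volume.restrict (Icc (τ.re - ρ) (τ.re + ρ))).prod (volume.restrict (Ioo (-b) b))) := by
    have hmp := Complex.volume_preserving_equiv_real_prod.symm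
    rw [← hmp.restrict_preimage_emb Complex.measurableEquivRealProd.symm.measurableEmbedding
      (ball τ ρ) |>.lintegral_comp_emb Complex.measurableEquivRealProd.symm.measurableEmbedding]
    have hsub : Complex.measurableEquivRealProd.symm ⁻¹' (ball τ ρ) ⊆
        Icc (τ.re - ρ) (τ.re + ρ) ×ˢ Ioo (-b) b := by
      rintro ⟨x, y⟩ hp
      rw [mem_preimage, mem_ball, dist_eq_norm] at hp
      have hx := (Complex.abs_re_le_norm _).trans hp.le
      have hy := (Complex.abs_im_le_norm _).trans hp.le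
      simp only [Complex.sub_re, Complex.sub_im, Complex.measurableEquivRealProd_symm_apply]
        at hx hy
      rw [abs_le] at hx hy
      rw [mem_prod]
      have him' := him
      have h5 := abs_le.1 (le_refl |τ.im|)
      refine ⟨⟨by linarith, by linarith⟩, ⟨by linarith, by linarith⟩⟩
    calc _ ≤ ∫⁻ p in Icc (τ.re - ρ) (τ.re + ρ) ×ˢ Ioo (-b) b,
          ‖f (Complex.measurableEquivRealProd.symm p)‖ₑ := lintegral_mono_set hsub
      _ = ∫⁻ p, ‖f (Complex.measurableEquivRealProd.symm p)‖ₑ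
          ∂((volume.restrict (Icc (τ.re - ρ) (τ.re + ρ))).prod (volume.restrict (Ioo (-b) b))) := by
          rw [Measure.prod_restrict]
          rfl
      _ ≤ _ := by
          apply lintegral_mono_ae
          have hb2 := (Measure.quasiMeasurePreserving_snd
            (μ := volume.restrict (Icc (τ.re - ρ) (τ.re + ρ)))
            (ν := volume.restrict (Ioo (-b) b))).ae hbd
          have hb1 := (Measure.quasiMeasurePreserving_fst
            (μ := volume.restrict (Icc (τ.re - ρ) (τ.re + ρ)))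
            (ν := volume.restrict (Ioo (-b) b))).ae
            (self_mem_ae_restrict (measurableSet_Icc (a := τ.re - ρ) (b := τ.re + ρ)))
          filter_upwards [hb1, hb2] with p hp1 hp2
          have h3 := hp2 p.1 (by linarith [hp1.2])
          rw [← ofReal_norm]
          apply ENNReal.ofReal_le_ofReal
          have h4 : (Complex.measurableEquivRealProd.symm p : ℂ) = p.1 + p.2 * Complex.I := by
            apply Complex.ext <;> simp
          rw [h4]
          exact h3
  have h3 : ∫⁻ p : ℝ × ℝ, ENNReal.ofReal (M * n p.2)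
      ∂((volume.restrict (Icc (τ.re - ρ) (τ.re + ρ))).prod (volume.restrict (Ioo (-b) b))) =
      ENNReal.ofReal (2 * ρ) * ENNReal.ofReal (M * K) := by
    rw [lintegral_prod _ (by fun_prop)]
    simp only [lintegral_const]
    rw [Measure.restrict_apply_univ, Real.volume_Icc, mul_comm]
    congr 1
    · congr 1
      ring
    · rw [hK, ← integral_const_mul, ofReal_integral_eq_lintegral_ofReal (hn.const_mul _)]
      exact Filter.Eventually.of_forall fun t => mul_nonneg hM (hn0 t)
  rw [h3] at h2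
  have h4 := h1.trans h2
  rw [← ofReal_norm, ← ENNReal.ofReal_mul (by positivity), ← ENNReal.ofReal_mul (by positivity),
    ENNReal.ofReal_le_ofReal_iff (by positivity)] at h4
  rw [← mul_div_assoc, le_div_iff₀ (by positivity)]
  nlinarith [h4]

/-- The two pointwise bounds. -/
theorem exists_bounds {b : ℝ} (hb : π < b) {Ψ : ℂ → ℂ} {γ : ℕ → ℂ} (h : Borel b Ψ γ) :
    ∃ C : ℝ, 0 < C ∧ ∃ q : ℝ, (∀ τ : ℂ, |τ.im| ≤ π → τ.re ≤ q →
      ‖Ψ τ‖ ≤ C * Real.exp (τ.re / 2)) ∧
      ∀ τ : ℂ, |τ.im| ≤ π → ‖Ψ τ‖ ≤ C * Real.exp (13 / 16 * Real.exp τ.re) := by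
  set ρ : ℝ := min (1 / 13) ((b - π) / 2) with hρ
  have hρ0 : 0 < ρ := lt_min (by norm_num) (by linarith)
  have hρ1 : ρ ≤ 1 / 13 := min_le_left _ _
  have hρ2 : ρ ≤ (b - π) / 2 := min_le_right _ _
  obtain ⟨n, hn0, hnm, hn2, hbd⟩ := h.small 0 (1 / 2) (by norm_num)
  obtain ⟨n', hn0', hnm', hn2', hbd'⟩ := h.large
  have hi := integrable_of_sq hn0 hnm hn2
  have hi' := integrable_of_sq hn0' hnm' hn2'
  simp only [Finset.range_zero, Finset.sum_empty, sub_zero] at hbd
  set C1 : ℝ := (2 * ρ * ∫ t in Ioo (-b) b, n t) / (π * ρ ^ 2) with hC1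
  set C2 : ℝ := (2 * ρ * ∫ t in Ioo (-b) b, n' t) / (π * ρ ^ 2) with hC2
  have hC10 : 0 ≤ C1 := by
    have : 0 ≤ ∫ t in Ioo (-b) b, n t := setIntegral_nonneg measurableSet_Ioo fun t _ => hn0 t
    positivity
  have hC20 : 0 ≤ C2 := by
    have : 0 ≤ ∫ t in Ioo (-b) b, n' t := setIntegral_nonneg measurableSet_Ioo fun t _ => hn0' t
    positivity
  refine ⟨Real.exp (ρ / 2) * C1 + C2 + 1, by positivity, -ρ, ?_, ?_⟩
  · intro τ h1 h2
    have h3 := pw_line h.hol hn0 hnm hi hρ0 (τ := τ) (by linarith)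
      (M := Real.exp ((τ.re + ρ) / 2)) (Real.exp_pos _).le (by
        filter_upwards [hbd] with t ht l hl
        refine (ht l (by linarith)).trans ?_
        apply mul_le_mul_of_nonneg_right _ (hn0 t)
        apply Real.exp_le_exp.2
        linarith)
    rw [← hC1] at h3
    refine h3.trans ?_
    have h4 : Real.exp ((τ.re + ρ) / 2) = Real.exp (τ.re / 2) * Real.exp (ρ / 2) := by
      rw [← Real.exp_add]
      congr 1
      ring
    rw [h4]
    nlinarith [Real.exp_pos (τ.re / 2), Real.exp_pos (ρ / 2)]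
  · intro τ h1
    have h3 := pw_line h.hol hn0' hnm' hi' hρ0 (τ := τ) (by linarith)
      (M := Real.exp (3 / 4 * Real.exp (τ.re + ρ))) (Real.exp_pos _).le (by
        filter_upwards [hbd'] with t ht l hl
        refine (ht l).trans ?_
        apply mul_le_mul_of_nonneg_right _ (hn0' t)
        apply Real.exp_le_exp.2
        have := Real.exp_le_exp.2 hl
        linarith)
    rw [← hC2] at h3
    refine h3.trans ?_
    have h5 : Real.exp ρ ≤ 13 / 12 := by
      have := Real.exp_bound_div_one_sub_of_interval hρ0.le (by linarith)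
      refine this.trans ?_
      rw [div_le_iff₀ (by linarith)]
      linarith
    have h4 : Real.exp (3 / 4 * Real.exp (τ.re + ρ)) ≤ Real.exp (13 / 16 * Real.exp τ.re) := by
      apply Real.exp_le_exp.2
      rw [Real.exp_add]
      nlinarith [Real.exp_pos τ.re]
    have h6 : 0 ≤ Real.exp (ρ / 2) * C1 := by positivity
    nlinarith [Real.exp_pos (3 / 4 * Real.exp (τ.re + ρ)), Real.exp_pos (13 / 16 * Real.exp τ.re)]

/-- The function `E(p) = Ψ(log p)`. -/
noncomputable def EE (Ψ : ℂ → ℂ) (p : ℂ) : ℂ := if p = 0 then 0 else Ψ (Complex.log p)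

theorem isOpen_strip (b : ℝ) : IsOpen {τ : ℂ | |τ.im| < b} :=
  isOpen_lt (by fun_prop) continuous_const

theorem EE_neg {b : ℝ} {Ψ : ℂ → ℂ}
    (hper : ∀ τ : ℂ, |τ.im| < b - π → Ψ (τ + π * Complex.I) = Ψ (τ - π * Complex.I))
    {p : ℂ} (hp : p.re < 0) (hp2 : |(Complex.log (-p)).im| < b - π) :
    EE Ψ p = Ψ (Complex.log (-p) + π * Complex.I) := by
  have hp0 : p ≠ 0 := by
    rintro rfl
    simp at hp
  rw [EE, if_neg hp0]
  rcases lt_or_ge p.im 0 with h | h
  · have h1 : Complex.log p = Complex.log (-p) - π * Complex.I := by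
      apply Complex.ext
      · simp [Complex.log_re]
      · simp only [Complex.log_im, Complex.sub_im, Complex.mul_im, Complex.ofReal_re,
          Complex.I_im, mul_one, Complex.ofReal_im, Complex.I_re, mul_zero, add_zero]
        rw [Complex.arg_neg_eq_arg_add_pi_of_im_neg h]
        ring
    rw [h1, hper _ hp2]
  · have h1 : Complex.log p = Complex.log (-p) + π * Complex.I := by
      apply Complex.ext
      · simp [Complex.log_re]
      · simp only [Complex.log_im, Complex.add_im, Complex.mul_im, Complex.ofReal_re,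
          Complex.I_im, mul_one, Complex.ofReal_im, Complex.I_re, mul_zero, add_zero]
        rcases h.lt_or_eq with h2 | h2
        · rw [Complex.arg_neg_eq_arg_sub_pi_of_im_pos h2]
          ring
        · have h3 : p = ((p.re : ℝ) : ℂ) := by
            apply Complex.ext <;> simp [← h2]
          rw [h3, Complex.arg_ofReal_of_neg hp, ← Complex.ofReal_neg,
            Complex.arg_ofReal_of_nonneg (by linarith)]
          ring
    rw [h1]

theorem differentiable_EE {b : ℝ} (hb : π < b) {Ψ : ℂ → ℂ} {γ : ℕ → ℂ} (h : Borel b Ψ γ)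
    (hper : ∀ τ : ℂ, |τ.im| < b - π → Ψ (τ + π * Complex.I) = Ψ (τ - π * Complex.I)) :
    Differentiable ℂ (EE Ψ) := by
  have hnhds : ∀ τ : ℂ, |τ.im| < b → DifferentiableAt ℂ Ψ τ := fun τ hτ =>
    h.hol.differentiableAt ((isOpen_strip b).mem_nhds hτ)
  rw [← differentiableOn_univ,
    ← Complex.differentiableOn_compl_singleton_and_continuousAt_iff (c := 0) univ_mem]
  refine ⟨?_, ?_⟩
  · intro p hp
    have hp0 : p ≠ 0 := by simpa using hp
    apply DifferentiableAt.differentiableWithinAt
    by_cases hs : p ∈ Complex.slitPlane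
    · have h1 : EE Ψ =ᶠ[𝓝 p] fun p => Ψ (Complex.log p) := by
        filter_upwards [isOpen_ne.mem_nhds hp0] with q hq
        rw [EE, if_neg hq]
      refine DifferentiableAt.congr_of_eventuallyEq ?_ h1
      apply DifferentiableAt.comp p (hnhds _ _) (Complex.differentiableAt_log hs)
      rw [Complex.log_im]
      exact (Complex.abs_arg_le_pi p).trans_lt hb
    · rw [Complex.mem_slitPlane_iff, not_or, not_lt, not_not] at hs
      have hre : p.re < 0 := by
        rcases hs.1.lt_or_eq with h1 | h1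
        · exact h1
        · exact absurd (Complex.ext h1 hs.2) hp0
      have hsl : -p ∈ Complex.slitPlane := by
        rw [Complex.mem_slitPlane_iff]
        left
        simpa using hre
      have hlog0 : (Complex.log (-p)).im = 0 := by
        rw [Complex.log_im, Complex.arg_eq_zero_iff]
        simp [hs.2, hre.le]
      have hc : ContinuousAt (fun q : ℂ => |(Complex.log (-q)).im|) p := by
        have h1 : ContinuousAt (fun q : ℂ => Complex.log (-q)) p :=
          (Complex.differentiableAt_log hsl).continuousAt.comp (f := fun q : ℂ => -q)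
            continuousAt_neg
        exact (Complex.continuous_im.continuousAt.comp h1).abs
      have h1 : EE Ψ =ᶠ[𝓝 p] fun q => Ψ (Complex.log (-q) + π * Complex.I) := by
        have h2 : ∀ᶠ q in 𝓝 p, |(Complex.log (-q)).im| < b - π := by
          apply hc.eventually_lt continuousAt_const
          simp only [hlog0, abs_zero]
          linarith
        have h3 : ∀ᶠ q : ℂ in 𝓝 p, q.re < 0 :=
          Complex.continuous_re.continuousAt.eventually_lt continuousAt_const hre
        filter_upwards [h2, h3] with q hq1 hq2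
        exact EE_neg hper hq2 hq1
      refine DifferentiableAt.congr_of_eventuallyEq ?_ h1
      have h4 : DifferentiableAt ℂ (fun q : ℂ => Complex.log (-q) + π * Complex.I) p := by
        apply DifferentiableAt.add_const
        exact (Complex.differentiableAt_log hsl).comp p (f := fun q : ℂ => -q)
          differentiableAt_id.neg
      apply DifferentiableAt.comp p (g := Ψ) (f := fun q : ℂ => Complex.log (-q) + π * Complex.I)
        (hnhds _ _) h4
      simp only [Complex.add_im, hlog0, Complex.mul_im, Complex.ofReal_re, Complex.I_im, mul_one,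
        Complex.ofReal_im, Complex.I_re, mul_zero, add_zero, zero_add]
      rw [abs_of_pos Real.pi_pos]
      exact hb
  · obtain ⟨C, hC, q, h1, -⟩ := exists_bounds hb h
    have hE0 : EE Ψ 0 = 0 := by simp [EE]
    rw [ContinuousAt, hE0]
    have h2 : ∀ᶠ p : ℂ in 𝓝 0, ‖EE Ψ p‖ ≤ C * ‖p‖ ^ (1 / 2 : ℝ) := by
      have h3 : ∀ᶠ p : ℂ in 𝓝 0, ‖p‖ < Real.exp q := by
        apply continuous_norm.continuousAt.eventually_lt continuousAt_const
        simpa using Real.exp_pos q
      filter_upwards [h3] with p hp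
      by_cases hp0 : p = 0
      · rw [hp0, hE0]
        simp
      · have hpos : 0 < ‖p‖ := norm_pos_iff.2 hp0
        rw [EE, if_neg hp0]
        have h4 := h1 (Complex.log p) (by
          rw [Complex.log_im]
          exact Complex.abs_arg_le_pi p) (by
          rw [Complex.log_re]
          exact ((Real.log_lt_iff_lt_exp hpos).2 hp).le)
        refine h4.trans (le_of_eq ?_)
        rw [Complex.log_re, Real.rpow_def_of_pos hpos]
        congr 2
        ring
    refine squeeze_zero_norm' h2 ?_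
    have h5 : Tendsto (fun p : ℂ => C * ‖p‖ ^ (1 / 2 : ℝ)) (𝓝 0) (𝓝 (C * ‖(0 : ℂ)‖ ^ (1 / 2 : ℝ))) := by
      apply Tendsto.const_mul
      apply Tendsto.rpow_const
      · exact continuous_norm.tendsto 0
      · right
        norm_num
    simpa using h5

/-- The Taylor coefficients. -/
noncomputable def gg (Ψ : ℂ → ℂ) (j : ℕ) : ℂ :=
  ((j + 1).factorial : ℂ)⁻¹ * iteratedDeriv (j + 1) (EE Ψ) 0

theorem hasSum_EE {b : ℝ} (hb : π < b) {Ψ : ℂ → ℂ} {γ : ℕ → ℂ} (h : Borel b Ψ γ)
    (hper : ∀ τ : ℂ, |τ.im| < b - π → Ψ (τ + π * Complex.I) = Ψ (τ - π * Complex.I)) (p : ℂ) :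
    HasSum (fun j : ℕ => gg Ψ j * p ^ (j + 1)) (EE Ψ p) := by
  have h1 := Complex.hasSum_taylorSeries_of_entire (differentiable_EE hb h hper) 0 p
  have h2 := (hasSum_nat_add_iff' 1).2 h1
  have hE0 : EE Ψ 0 = 0 := by simp [EE]
  simp only [Finset.range_one, Finset.sum_singleton, sub_zero] at h2
  simp only [Nat.factorial_zero, Nat.cast_one, inv_one, pow_zero, one_smul,
    iteratedDeriv_zero, hE0, sub_zero] at h2
  refine h2.congr_fun ?_
  intro j
  simp only [gg, smul_eq_mul]
  ring

theorem norm_gg_le {b : ℝ} (hb : π < b) {Ψ : ℂ → ℂ} {γ : ℕ → ℂ} (h : Borel b Ψ γ)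
    (hper : ∀ τ : ℂ, |τ.im| < b - π → Ψ (τ + π * Complex.I) = Ψ (τ - π * Complex.I)) :
    ∃ C : ℝ, 0 < C ∧ ∀ (j : ℕ) (R : ℝ), 0 < R →
      ‖gg Ψ j‖ * R ^ (j + 1) ≤ C * Real.exp (13 / 16 * R) := by
  obtain ⟨C, hC, q, -, h2⟩ := exists_bounds hb h
  refine ⟨C, hC, fun j R hR => ?_⟩
  have h3 := Complex.norm_iteratedDeriv_le_of_forall_mem_sphere_norm_le (c := 0) (j + 1) hR
    (differentiable_EE hb h hper).diffContOnCl (C := C * Real.exp (13 / 16 * R)) (by
      intro z hz
      have hz1 : ‖z‖ = R := by simpa using hz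
      have hz0 : z ≠ 0 := by
        rintro rfl
        simp at hz1
        linarith
      rw [EE, if_neg hz0]
      have h4 := h2 (Complex.log z) (by
          rw [Complex.log_im]
          exact Complex.abs_arg_le_pi z)
      rwa [Complex.log_re, hz1, Real.exp_log hR] at h4)
  rw [le_div_iff₀ (by positivity)] at h3
  rw [gg, norm_mul, norm_inv, Complex.norm_natCast, mul_assoc]
  rw [inv_mul_le_iff₀ (by positivity)]
  exact h3

/-- The expansion of `Ψ`. -/
theorem hasSum_Psi {b : ℝ} (hb : π < b) {Ψ : ℂ → ℂ} {γ : ℕ → ℂ} (h : Borel b Ψ γ)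
    (hper : ∀ τ : ℂ, |τ.im| < b - π → Ψ (τ + π * Complex.I) = Ψ (τ - π * Complex.I))
    {τ : ℂ} (hτ : |τ.im| < b) :
    HasSum (fun j : ℕ => gg Ψ j * Complex.exp ((j + 1) * τ)) (Ψ τ) := by
  have hE : Differentiable ℂ (fun τ => EE Ψ (Complex.exp τ)) :=
    (differentiable_EE hb h hper).comp Complex.differentiable_exp
  have hconv : Convex ℝ {τ : ℂ | |τ.im| < b} := by
    have : {τ : ℂ | |τ.im| < b} = Complex.imLm ⁻¹' (Ioo (-b) b) := by
      ext τ
      simp [abs_lt]
    rw [this]
    exact (convex_Ioo _ _).linear_preimage _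
  have h1 : EqOn (fun τ => EE Ψ (Complex.exp τ)) Ψ {τ : ℂ | |τ.im| < b} := by
    have h2 : ∀ᶠ τ : ℂ in 𝓝 0, |τ.im| < π := by
      apply (isOpen_strip π).mem_nhds
      show |(0 : ℂ).im| < π
      simp [Real.pi_pos]
    have h3 : (fun τ => EE Ψ (Complex.exp τ)) =ᶠ[𝓝 0] Ψ := by
      filter_upwards [h2] with τ hτ
      rw [abs_lt] at hτ
      rw [EE, if_neg (Complex.exp_ne_zero _), Complex.log_exp hτ.1 hτ.2.le]
    have h4 : (0 : ℂ) ∈ {τ : ℂ | |τ.im| < b} := by
      show |(0 : ℂ).im| < b
      simp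
      linarith [Real.pi_pos]
    exact AnalyticOnNhd.eqOn_of_preconnected_of_eventuallyEq
      ((hE.differentiableOn).analyticOnNhd (isOpen_strip b))
      (h.hol.analyticOnNhd (isOpen_strip b)) hconv.isPreconnected h4 h3
  have h2 := hasSum_EE hb h hper (Complex.exp τ)
  rw [show EE Ψ (Complex.exp τ) = Ψ τ from h1 hτ] at h2
  refine h2.congr_fun ?_
  intro j
  rw [← Complex.exp_nat_mul]
  push_cast
  rfl

end Pool.Agent.Worm.BC
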