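import Mathlib
import Pool.Agent.Worm.BC.Entire

/-! Gamma function estimates of the coefficients. -/

open MeasureTheory Set Metric Filter Topology
open scoped Real ENNReal

namespace Pool.Agent.Worm.BC

open Pool.Agent.Worm.B2

/-- Real rising factorial `(x+1)(x+2)...(x+j)`. -/
noncomputable def rR (x : ℝ) (j : ℕ) : ℝ := ∏ i ∈ Finset.range j, (x + 1 + i)

/-- Complex rising factorial `(σ+1)(σ+2)...(σ+j)`. -/
noncomputable def rC (σ : ℂ) (j : ℕ) : ℂ := ∏ i ∈ Finset.range j, (σ + 1 + i)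

theorem rR_succ (x : ℝ) (j : ℕ) : rR x (j + 1) = rR x j * (x + 1 + j) := by
  rw [rR, Finset.prod_range_succ, ← rR]

theorem rC_succ (σ : ℂ) (j : ℕ) : rC σ (j + 1) = rC σ j * (σ + 1 + j) := by
  rw [rC, Finset.prod_range_succ, ← rC]

theorem rR_Gamma {x : ℝ} (hx : 0 < x) (j : ℕ) :
    Real.Gamma (x + j + 1) = rR x j * Real.Gamma (x + 1) := by
  induction j with
  | zero => simp [rR]
  | succ j ih =>
    have : x + ((j + 1 : ℕ) : ℝ) + 1 = (x + j + 1) + 1 := by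
      push_cast
      ring
    rw [this, Real.Gamma_add_one (by positivity), ih, rR_succ]
    ring

theorem rC_Gamma {σ : ℂ} (hσ : 0 < σ.re) (j : ℕ) :
    Complex.Gamma (σ + j + 1) = rC σ j * Complex.Gamma (σ + 1) := by
  induction j with
  | zero => simp [rC]
  | succ j ih =>
    have : σ + ((j + 1 : ℕ) : ℂ) + 1 = (σ + j + 1) + 1 := by
      push_cast
      ring
    have hne : σ + j + 1 ≠ 0 := by
      intro h
      have := congrArg Complex.re h
      simp at this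
      have h2 : (0 : ℝ) ≤ j := by positivity
      linarith
    rw [this, Complex.Gamma_add_one _ hne, ih, rC_succ]
    ring

theorem norm_rC_le {σ : ℂ} {x : ℝ} (hx : ‖σ‖ ≤ x) (j : ℕ) : ‖rC σ j‖ ≤ rR x j := by
  rw [rC, rR, norm_prod]
  apply Finset.prod_le_prod
  · intro i _
    exact norm_nonneg _
  · intro i _
    calc ‖σ + 1 + i‖ ≤ ‖σ‖ + 1 + i := by
          refine (norm_add_le _ _).trans (add_le_add ((norm_add_le _ _).trans (by simp)) (by simp))
      _ ≤ _ := by linarith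

theorem differentiable_rC (j : ℕ) : Differentiable ℂ fun σ => rC σ j := by
  unfold rC
  fun_prop

theorem rR_bound {b : ℝ} (hb : π < b) {Ψ : ℂ → ℂ} {γ : ℕ → ℂ} (h : Borel b Ψ γ)
    (hper : ∀ τ : ℂ, |τ.im| < b - π → Ψ (τ + π * Complex.I) = Ψ (τ - π * Complex.I)) :
    ∃ C : ℝ, 0 < C ∧ ∀ (j : ℕ) (x : ℝ), 1 ≤ x →
      ‖gg Ψ j‖ * rR x j ≤ C * (14 : ℝ) ^ x * (7 / 8) ^ j := by
  obtain ⟨C, hC, h1⟩ := norm_gg_le hb h hper
  refine ⟨C, hC, fun j x hx => ?_⟩
  have hx0 : 0 < x := by linarith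
  have hj : (0 : ℝ) ≤ j := by positivity
  have i1 := Real.integral_rpow_mul_exp_neg_mul_Ioi (a := x + j + 1) (r := 7 / 8) (by linarith)
    (by norm_num)
  have i2 := Real.integral_rpow_mul_exp_neg_mul_Ioi (a := x) (r := 1 / 16) (by linarith)
    (by norm_num)
  have hint : ∀ (a r : ℝ), 0 < a → 0 < r →
      IntegrableOn (fun t : ℝ => t ^ (a - 1) * Real.exp (-(r * t))) (Ioi 0) := by
    intro a r ha hr
    have := integrableOn_rpow_mul_exp_neg_mul_rpow (p := 1) (s := a - 1) (b := r) (by linarith)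
      (by norm_num) hr
    refine this.congr_fun (fun t _ => ?_) measurableSet_Ioi
    simp
  have hle : ∫ t in Ioi (0 : ℝ), ‖gg Ψ j‖ * (t ^ (x + j + 1 - 1) * Real.exp (-(7 / 8 * t))) ≤
      ∫ t in Ioi (0 : ℝ), C * (t ^ (x - 1) * Real.exp (-(1 / 16 * t))) := by
    apply setIntegral_mono_on
    · exact (hint _ _ (by linarith) (by norm_num)).const_mul _
    · exact (hint _ _ (by linarith) (by norm_num)).const_mul _
    · exact measurableSet_Ioi
    · intro t ht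
      have ht0 : (0 : ℝ) < t := ht
      have h2 := h1 j t ht0
      have h3 : t ^ (x + j + 1 - 1) = t ^ (j + 1) * t ^ (x - 1) := by
        rw [← Real.rpow_natCast, ← Real.rpow_add ht0]
        congr 1
        push_cast
        ring
      have h4 : Real.exp (-(1 / 16 * t)) = Real.exp (13 / 16 * t) * Real.exp (-(7 / 8 * t)) := by
        rw [← Real.exp_add]
        congr 1
        ring
      rw [h3, h4]
      have h5 : 0 ≤ t ^ (x - 1) * Real.exp (-(7 / 8 * t)) := by positivity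
      calc ‖gg Ψ j‖ * (t ^ (j + 1) * t ^ (x - 1) * Real.exp (-(7 / 8 * t)))
          = (‖gg Ψ j‖ * t ^ (j + 1)) * (t ^ (x - 1) * Real.exp (-(7 / 8 * t))) := by ring
        _ ≤ (C * Real.exp (13 / 16 * t)) * (t ^ (x - 1) * Real.exp (-(7 / 8 * t))) :=
            mul_le_mul_of_nonneg_right h2 h5
        _ = _ := by ring
  rw [integral_const_mul, integral_const_mul, i1, i2, rR_Gamma hx0,
    Real.Gamma_add_one hx0.ne'] at hle
  have hG : 0 < Real.Gamma x := Real.Gamma_pos_of_pos hx0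
  have e1 : (1 / (7 / 8 : ℝ)) ^ (x + j + 1) = ((7 / 8 : ℝ) ^ (x + j + 1))⁻¹ := by
    rw [one_div, Real.inv_rpow (by norm_num)]
  have e2 : (1 / (1 / 16 : ℝ)) ^ x = (16 : ℝ) ^ x := by norm_num
  have e3 : (7 / 8 : ℝ) ^ (x + j + 1) = (7 / 8 : ℝ) ^ x * ((7 / 8) ^ j * (7 / 8)) := by
    rw [add_assoc, Real.rpow_add (by norm_num), ← pow_succ, ← Real.rpow_natCast (7 / 8) (j + 1)]
    push_cast
    rfl
  have e4 : (16 : ℝ) ^ x * (7 / 8 : ℝ) ^ x = (14 : ℝ) ^ x := by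
    rw [← Real.mul_rpow (by norm_num) (by norm_num)]
    norm_num
  rw [e1, e2] at hle
  have hpos : 0 < (7 / 8 : ℝ) ^ (x + j + 1) := by positivity
  have h6 : ‖gg Ψ j‖ * rR x j * (x * Real.Gamma x) ≤
      C * ((14 : ℝ) ^ x * ((7 / 8) ^ j * (7 / 8))) * Real.Gamma x := by
    have h7 : ‖gg Ψ j‖ * rR x j * (x * Real.Gamma x) =
        (‖gg Ψ j‖ * (((7 / 8 : ℝ) ^ (x + j + 1))⁻¹ * (rR x j * (x * Real.Gamma x)))) *
          (7 / 8 : ℝ) ^ (x + j + 1) := by
      field_simp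
    rw [h7]
    refine (mul_le_mul_of_nonneg_right hle hpos.le).trans (le_of_eq ?_)
    rw [e3, ← e4]
    ring
  have h8 : 0 ≤ ‖gg Ψ j‖ * rR x j := by
    apply mul_nonneg (norm_nonneg _)
    apply Finset.prod_nonneg
    intro i _
    positivity
  have h9 : ‖gg Ψ j‖ * rR x j * Real.Gamma x ≤
      (C * (14 : ℝ) ^ x * (7 / 8) ^ j) * Real.Gamma x := by
    calc ‖gg Ψ j‖ * rR x j * Real.Gamma x ≤ ‖gg Ψ j‖ * rR x j * (x * Real.Gamma x) := by
          apply mul_le_mul_of_nonneg_left _ h8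
          nlinarith
      _ ≤ _ := h6
      _ ≤ _ := by
          have : 0 ≤ C * (14 : ℝ) ^ x * (7 / 8) ^ j := by positivity
          nlinarith
  exact le_of_mul_le_mul_right h9 hG

/-- The main bound of the coefficients. -/
theorem rC_bound {b : ℝ} (hb : π < b) {Ψ : ℂ → ℂ} {γ : ℕ → ℂ} (h : Borel b Ψ γ)
    (hper : ∀ τ : ℂ, |τ.im| < b - π → Ψ (τ + π * Complex.I) = Ψ (τ - π * Complex.I)) :
    ∃ C : ℝ, 0 < C ∧ ∀ (j : ℕ) (σ : ℂ),
      ‖gg Ψ j * rC σ j‖ ≤ C * (14 : ℝ) ^ ‖σ‖ * (7 / 8) ^ j := by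
  obtain ⟨C, hC, h1⟩ := rR_bound hb h hper
  refine ⟨C * 14, by positivity, fun j σ => ?_⟩
  rw [norm_mul]
  have h2 := norm_rC_le (σ := σ) (x := ‖σ‖ + 1) (by linarith) j
  have h3 := h1 j (‖σ‖ + 1) (by linarith [norm_nonneg σ])
  rw [Real.rpow_add (by norm_num), Real.rpow_one] at h3
  refine (mul_le_mul_of_nonneg_left h2 (norm_nonneg _)).trans (h3.trans (le_of_eq ?_))
  ring

end Pool.Agent.Worm.BC
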