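import Mathlib
import Pool.Agent.Worm.BC.Coef
import Pool.Agent.Worm.Borel

/-! The relation, integrated term by term. -/

open MeasureTheory Set Metric Filter Topology
open scoped Real ENNReal

namespace Pool.Agent.Worm.BC

open Pool.Agent.Worm.B2 Pool.Agent.Worm.Br

/-- `κ = 1 - iσ`. -/
noncomputable def kap (σ : ℂ) : ℂ := 1 - Complex.I * σ

/-- `∫ t e^{tp} dt`. -/
noncomputable def Lint (b : ℝ) (p : ℂ) : ℂ := ∫ t in Ioo (-b) b, (t : ℂ) * Complex.exp (t * p)

theorem gamma_exp_real {x : ℝ} (hx : 0 < x) :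
    Integrable (fun l : ℝ => Real.exp (x * l) * Real.exp (-Real.exp l)) ∧
    ∫ l : ℝ, Real.exp (x * l) * Real.exp (-Real.exp l) = Real.Gamma x := by
  obtain ⟨h1, h2⟩ := gamma_exp (σ := (x : ℂ)) (by simpa using hx)
  have e : ∀ l : ℝ, Complex.exp ((x : ℂ) * l) * ((Real.exp (-Real.exp l) : ℝ) : ℂ) =
      ((Real.exp (x * l) * Real.exp (-Real.exp l) : ℝ) : ℂ) := by
    intro l
    push_cast
    rfl
  simp only [e] at h1 h2
  constructor
  · exact h1.re.congr (Eventually.of_forall fun l => Complex.ofReal_re _)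
  · rw [integral_complex_ofReal, Complex.Gamma_ofReal] at h2
    exact_mod_cast h2

/-- The coefficients of `Ψ + i t e^τ`. -/
noncomputable def cc (Ψ : ℂ → ℂ) (t : ℝ) (j : ℕ) : ℂ := gg Ψ j + if j = 0 then t * Complex.I else 0

theorem hasSum_cc {b : ℝ} (hb : π < b) {Ψ : ℂ → ℂ} {γ : ℕ → ℂ} (h : Borel b Ψ γ)
    (hper : ∀ τ : ℂ, |τ.im| < b - π → Ψ (τ + π * Complex.I) = Ψ (τ - π * Complex.I))
    (t : ℝ) {τ : ℂ} (hτ : |τ.im| < b) :
    HasSum (fun j : ℕ => cc Ψ t j * Complex.exp ((j + 1) * τ))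
      (Ψ τ + t * Complex.I * Complex.exp τ) := by
  have h1 := hasSum_Psi hb h hper hτ
  have h2 := hasSum_ite_eq (0 : ℕ) ((t : ℂ) * Complex.I * Complex.exp τ)
  have h3 := h1.add h2
  refine h3.congr_fun fun j => ?_
  by_cases hj : j = 0
  · subst hj
    simp [cc]
    ring
  · simp [cc, hj]

theorem rR_mono {x y : ℝ} (hx : 0 ≤ x) (hxy : x ≤ y) (j : ℕ) : rR x j ≤ rR y j := by
  apply Finset.prod_le_prod
  · intro i _
    positivity
  · intro i _
    linarith

theorem rR_nonneg {x : ℝ} (hx : 0 ≤ x) (j : ℕ) : 0 ≤ rR x j := by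
  apply Finset.prod_nonneg
  intro i _
  positivity

theorem inner_hasSum {b : ℝ} (hb : π < b) {Ψ : ℂ → ℂ} {γ : ℕ → ℂ} (h : Borel b Ψ γ)
    (hper : ∀ τ : ℂ, |τ.im| < b - π → Ψ (τ + π * Complex.I) = Ψ (τ - π * Complex.I))
    {σ : ℂ} (hσ : 0 < σ.re) {t : ℝ} (ht : |t| < b) :
    HasSum (fun j : ℕ => cc Ψ t j * Complex.exp (t * (kap σ + Complex.I * (j + 1))) *
      Complex.Gamma (σ + j + 1))
      (∫ l : ℝ, (Ψ (l + t * Complex.I) + t * Complex.I * Complex.exp (l + t * Complex.I)) *
        Complex.exp (σ * (l - t * Complex.I)) * Real.exp t * Real.exp (-Real.exp l)) := by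
  obtain ⟨C, hC, hCb⟩ := rR_bound hb h hper
  have hj : ∀ j : ℕ, (0 : ℝ) ≤ j := fun j => by positivity
  set u : ℕ → ℝ → ℂ := fun j l => (cc Ψ t j * Complex.exp (t * (kap σ + Complex.I * (j + 1)))) *
    (Complex.exp ((σ + j + 1) * l) * ((Real.exp (-Real.exp l) : ℝ) : ℂ)) with hu
  have hre : ∀ j : ℕ, 0 < (σ + j + 1).re := by
    intro j
    have := hj j
    simp
    linarith
  have hint : ∀ j : ℕ, Integrable (u j) := fun j => (gamma_exp (hre j)).1.const_mul _
  have hnorm : ∀ j : ℕ, ∫ l, ‖u j l‖ = ‖cc Ψ t j‖ * Real.exp (t * (kap σ).re) *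
      Real.Gamma (σ.re + j + 1) := by
    intro j
    have h1 : ∀ l : ℝ, ‖u j l‖ = (‖cc Ψ t j‖ * Real.exp (t * (kap σ).re)) *
        (Real.exp ((σ.re + j + 1) * l) * Real.exp (-Real.exp l)) := by
      intro l
      rw [hu]
      simp only
      rw [norm_mul, norm_mul, norm_mul, Complex.norm_exp, Complex.norm_exp, Complex.norm_real,
        Real.norm_of_nonneg (Real.exp_pos _).le]
      congr 3
      · congr 1
        simp
      · congr 1
        simp
    simp_rw [h1]
    rw [integral_const_mul, (gamma_exp_real (x := σ.re + j + 1) (by linarith [hj j])).2]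
  have hsum : Summable fun j : ℕ => ∫ l, ‖u j l‖ := by
    have hG : 0 < Real.Gamma (σ.re + 1) := Real.Gamma_pos_of_pos (by linarith)
    have hs1 : Summable fun j : ℕ => C * (14 : ℝ) ^ (σ.re + 1) * (7 / 8) ^ j +
        (if j = 0 then |t| else 0) :=
      ((summable_geometric_of_lt_one (by norm_num) (by norm_num)).mul_left _).add
        (hasSum_ite_eq (0 : ℕ) |t|).summable
    refine Summable.of_nonneg_of_le (fun j => integral_nonneg fun l => norm_nonneg _) (fun j => ?_)
      (hs1.mul_left (Real.exp (t * (kap σ).re) * Real.Gamma (σ.re + 1)))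
    rw [hnorm, rR_Gamma hσ]
    have h2 : ‖cc Ψ t j‖ * rR σ.re j ≤ C * (14 : ℝ) ^ (σ.re + 1) * (7 / 8) ^ j +
        (if j = 0 then |t| else 0) := by
      have h3 : ‖gg Ψ j‖ * rR σ.re j ≤ C * (14 : ℝ) ^ (σ.re + 1) * (7 / 8) ^ j :=
        (mul_le_mul_of_nonneg_left (rR_mono hσ.le (by linarith) j) (norm_nonneg _)).trans
          (hCb j (σ.re + 1) (by linarith))
      by_cases hj0 : j = 0
      · subst hj0
        have h4 : rR σ.re 0 = 1 := by simp [rR]
        rw [h4] at h3 ⊢
        simp only [cc, if_true]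
        refine (mul_le_mul_of_nonneg_right (norm_add_le _ _) zero_le_one).trans ?_
        have h5 : ‖(t : ℂ) * Complex.I‖ = |t| := by simp
        rw [h5]
        linarith
      · simp only [cc, hj0, if_false, add_zero]
        exact h3
    calc ‖cc Ψ t j‖ * Real.exp (t * (kap σ).re) * (rR σ.re j * Real.Gamma (σ.re + 1))
        = (Real.exp (t * (kap σ).re) * Real.Gamma (σ.re + 1)) * (‖cc Ψ t j‖ * rR σ.re j) := by ring
      _ ≤ _ := mul_le_mul_of_nonneg_left h2 (by positivity)
  have hmain := hasSum_integral_of_summable_integral_norm hint hsum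
  have e1 : (fun j : ℕ => ∫ l, u j l) = fun j : ℕ => cc Ψ t j *
      Complex.exp (t * (kap σ + Complex.I * (j + 1))) * Complex.Gamma (σ + j + 1) := by
    funext j
    rw [hu]
    simp only
    rw [integral_const_mul, (gamma_exp (hre j)).2]
  have e2 : ∫ l, ∑' j : ℕ, u j l = ∫ l : ℝ, (Ψ (l + t * Complex.I) + t * Complex.I *
      Complex.exp (l + t * Complex.I)) * Complex.exp (σ * (l - t * Complex.I)) * Real.exp t *
        Real.exp (-Real.exp l) := by
    apply integral_congr_ae
    refine Eventually.of_forall fun l => ?_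
    have h3 := hasSum_cc hb h hper t (τ := l + t * Complex.I) (by simpa using ht)
    have h4 := ((h3.mul_right (Complex.exp (σ * (l - t * Complex.I)))).mul_right
      ((Real.exp t : ℝ) : ℂ)).mul_right ((Real.exp (-Real.exp l) : ℝ) : ℂ)
    simp only
    rw [← h4.tsum_eq]
    apply tsum_congr
    intro j
    rw [hu]
    simp only
    have h5 : Complex.exp (t * (kap σ + Complex.I * (j + 1))) * Complex.exp ((σ + j + 1) * l) =
        Complex.exp ((j + 1) * (l + t * Complex.I)) * Complex.exp (σ * (l - t * Complex.I)) *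
          ((Real.exp t : ℝ) : ℂ) := by
      rw [Complex.ofReal_exp, ← Complex.exp_add, ← Complex.exp_add, ← Complex.exp_add]
      congr 1
      unfold kap
      ring
    linear_combination (cc Ψ t j * ((Real.exp (-Real.exp l) : ℝ) : ℂ)) * h5
  rw [e1, e2] at hmain
  exact hmain

/-- The relation, integrated term by term. -/
theorem relation {b : ℝ} (hb : π < b) {Ψ : ℂ → ℂ} {γ : ℕ → ℂ} (h : Borel b Ψ γ)
    (hper : ∀ τ : ℂ, |τ.im| < b - π → Ψ (τ + π * Complex.I) = Ψ (τ - π * Complex.I))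
    {σ : ℂ} (hσ : 0 < σ.re) :
    HasSum (fun j : ℕ => gg Ψ j * rC σ j * mm b (kap σ + Complex.I * (j + 1)))
      (-(Complex.I * Lint b (kap σ + Complex.I))) := by
  obtain ⟨C, hC, hCb⟩ := rC_bound hb h hper
  have hb0 : 0 < b := by linarith [Real.pi_pos]
  have hG : Complex.Gamma (σ + 1) ≠ 0 :=
    Complex.Gamma_ne_zero_of_re_pos (by simp; linarith)
  set v : ℕ → ℝ → ℂ := fun j t => cc Ψ t j * Complex.exp (t * (kap σ + Complex.I * (j + 1))) *
      Complex.Gamma (σ + j + 1) with hv
  have hint : ∀ j : ℕ, Integrable (v j) (volume.restrict (Ioo (-b) b)) := by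
    intro j
    apply integrableOn_Ioo_of_continuous
    rw [hv]
    simp only
    unfold cc
    by_cases hj : j = 0
    · simp only [hj, if_true]
      fun_prop
    · simp only [hj, if_false]
      fun_prop
  set M : ℝ := Real.exp (b * |(kap σ).re|) * ‖Complex.Gamma (σ + 1)‖ with hM
  have hs1 : Summable fun j : ℕ => C * (14 : ℝ) ^ ‖σ‖ * (7 / 8) ^ j +
      (if j = 0 then b else 0) :=
    ((summable_geometric_of_lt_one (by norm_num) (by norm_num)).mul_left _).add
      (hasSum_ite_eq (0 : ℕ) b).summable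
  have hnorm : ∀ j : ℕ, ∀ t ∈ Ioo (-b) b, ‖v j t‖ ≤ M * (C * (14 : ℝ) ^ ‖σ‖ * (7 / 8) ^ j +
      (if j = 0 then b else 0)) := by
    intro j t ht
    have ht' : |t| < b := abs_lt.2 ht
    rw [hv]
    simp only
    rw [rC_Gamma hσ, norm_mul, norm_mul, norm_mul, Complex.norm_exp]
    have h1 : ((t : ℂ) * (kap σ + Complex.I * (j + 1))).re = t * (kap σ).re := by simp
    rw [h1]
    have h2 : Real.exp (t * (kap σ).re) ≤ Real.exp (b * |(kap σ).re|) := by
      apply Real.exp_le_exp.2
      refine (le_abs_self _).trans ?_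
      rw [abs_mul]
      exact mul_le_mul_of_nonneg_right ht'.le (abs_nonneg _)
    have h3 : ‖cc Ψ t j‖ * ‖rC σ j‖ ≤ C * (14 : ℝ) ^ ‖σ‖ * (7 / 8) ^ j +
      (if j = 0 then b else 0) := by
      have h4 := hCb j σ
      by_cases hj0 : j = 0
      · subst hj0
        have h5 : rC σ 0 = 1 := by simp [rC]
        rw [h5] at h4 ⊢
        simp only [cc, if_true, norm_one, mul_one] at h4 ⊢
        refine (norm_add_le _ _).trans ?_
        have h6 : ‖(t : ℂ) * Complex.I‖ = |t| := by simp
        rw [h6]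
        linarith
      · simp only [cc, hj0, if_false, add_zero]
        rw [← norm_mul]
        exact h4
    have h7 : 0 ≤ C * (14 : ℝ) ^ ‖σ‖ * (7 / 8) ^ j + (if j = 0 then b else 0) :=
      le_trans (by positivity) h3
    calc ‖cc Ψ t j‖ * Real.exp (t * (kap σ).re) * (‖rC σ j‖ * ‖Complex.Gamma (σ + 1)‖)
        = (Real.exp (t * (kap σ).re) * ‖Complex.Gamma (σ + 1)‖) * (‖cc Ψ t j‖ * ‖rC σ j‖) := by
          ring
      _ ≤ (Real.exp (b * |(kap σ).re|) * ‖Complex.Gamma (σ + 1)‖) *
          (C * (14 : ℝ) ^ ‖σ‖ * (7 / 8) ^ j + (if j = 0 then b else 0)) := by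
          gcongr
      _ = _ := by rw [hM]
  have hsum : Summable fun j : ℕ => ∫ t in Ioo (-b) b, ‖v j t‖ := by
    refine Summable.of_nonneg_of_le (fun j => integral_nonneg fun l => norm_nonneg _) (fun j => ?_)
      ((hs1.mul_left M).mul_left (2 * b))
    calc ∫ t in Ioo (-b) b, ‖v j t‖ ≤ ∫ t in Ioo (-b) b, M * (C * (14 : ℝ) ^ ‖σ‖ * (7 / 8) ^ j +
          (if j = 0 then b else 0)) := by
          exact setIntegral_mono_on (hint j).norm (integrable_const _) measurableSet_Ioo (hnorm j)
      _ = _ := by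
          rw [setIntegral_const, smul_eq_mul]
          congr 1
          simp only [measureReal_def, Real.volume_Ioo]
          rw [ENNReal.toReal_ofReal (by linarith)]
          ring
  have hmain := hasSum_integral_of_summable_integral_norm hint hsum
  have e2 : ∫ t in Ioo (-b) b, ∑' j : ℕ, v j t = 0 := by
    rw [← h.rel σ hσ]
    apply setIntegral_congr_fun measurableSet_Ioo
    intro t ht
    exact (inner_hasSum hb h hper hσ (abs_lt.2 ht)).tsum_eq
  rw [e2] at hmain
  have e1 : ∀ j : ℕ, ∫ t in Ioo (-b) b, v j t = (gg Ψ j * rC σ j *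
      mm b (kap σ + Complex.I * (j + 1)) +
      (if j = 0 then Complex.I * Lint b (kap σ + Complex.I) else 0)) * Complex.Gamma (σ + 1) := by
    intro j
    rw [hv]
    simp only
    rw [rC_Gamma hσ]
    have i1 : IntegrableOn (fun t : ℝ => Complex.exp (t * (kap σ + Complex.I * (j + 1))))
        (Ioo (-b) b) := integrableOn_Ioo_of_continuous (by fun_prop) _ _
    have i2 : IntegrableOn (fun t : ℝ => (t : ℂ) * Complex.exp (t * (kap σ + Complex.I * (j + 1))))
        (Ioo (-b) b) := integrableOn_Ioo_of_continuous (by fun_prop) _ _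
    by_cases hj : j = 0
    · subst hj
      simp only [cc, if_true, Nat.cast_zero, zero_add, mul_one] at i1 i2 ⊢
      have h5 : rC σ 0 = 1 := by simp [rC]
      have e3 : ∀ t : ℝ, (gg Ψ 0 + t * Complex.I) * Complex.exp (t * (kap σ + Complex.I)) *
          (rC σ 0 * Complex.Gamma (σ + 1)) =
          (gg Ψ 0 * Complex.Gamma (σ + 1)) * Complex.exp (t * (kap σ + Complex.I)) +
          (Complex.I * Complex.Gamma (σ + 1)) * (t * Complex.exp (t * (kap σ + Complex.I))) := by
        intro t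
        rw [h5]
        ring
      simp_rw [e3]
      rw [integral_add (i1.const_mul _) (i2.const_mul _), integral_const_mul, integral_const_mul,
        h5, mm, Lint]
      ring
    · simp only [cc, hj, if_false, add_zero]
      have e3 : ∀ t : ℝ, gg Ψ j * Complex.exp (t * (kap σ + Complex.I * (j + 1))) *
          (rC σ j * Complex.Gamma (σ + 1)) =
          (gg Ψ j * rC σ j * Complex.Gamma (σ + 1)) *
            Complex.exp (t * (kap σ + Complex.I * (j + 1))) := by
        intro t
        ring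
      simp_rw [e3]
      rw [integral_const_mul, mm]
      ring
  simp_rw [e1] at hmain
  have h6 := hmain.mul_right (Complex.Gamma (σ + 1))⁻¹
  rw [zero_mul] at h6
  have h7 : HasSum (fun j : ℕ => gg Ψ j * rC σ j * mm b (kap σ + Complex.I * (j + 1)) +
      (if j = 0 then Complex.I * Lint b (kap σ + Complex.I) else 0)) 0 := by
    refine h6.congr_fun fun j => ?_
    rw [mul_inv_cancel_right₀ hG]
  have h8 := h7.sub (hasSum_ite_eq (0 : ℕ) (Complex.I * Lint b (kap σ + Complex.I)))
  rw [zero_sub] at h8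
  refine h8.congr_fun fun j => ?_
  ring

end Pool.Agent.Worm.BC
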